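import Pool.Agent.Q284.GE.Stm

/-!
# Project GE of helper284, job NUM (numerical inequalities)
-/

set_option autoImplicit false

open Finset Filter
open scoped Topology

namespace Pool.Agent.Q224.GE

open Pool.Agent.Q284.GE (Num eta al Rm Lm)

/-- comparison of powers -/
theorem pw {q : ℝ} (hq : 2 ≤ q) {e e' : ℝ} (h1 : e ≤ e') (h2 : e' ≤ 0) : q ^ e ≤ 2 ^ e' :=
  (Real.rpow_le_rpow_of_exponent_le (by linarith) h1).trans
    (Real.rpow_le_rpow_of_nonpos (by norm_num) hq h2)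

/-- `m 2^(-a m) ≤ 2/a` -/
theorem lin (a : ℝ) (ha : 0 < a) (m : ℕ) : (m : ℝ) * 2 ^ (-(a * m)) ≤ 2 / a := by
  have h1 : (2 : ℝ) ^ (a * m) = Real.exp (Real.log 2 * (a * m)) := Real.rpow_def_of_pos (by norm_num) _
  have h2 := Real.add_one_le_exp (Real.log 2 * (a * m))
  have h3 : (1 : ℝ) / 2 ≤ Real.log 2 := by
    have := Real.log_two_gt_d9
    linarith
  have h4 : 0 < (2 : ℝ) ^ (a * m) := Real.rpow_pos_of_pos (by norm_num) _
  have h5 : 1 / 2 * (a * m) ≤ (2 : ℝ) ^ (a * m) := by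
    rw [h1]
    have h6 : 1 / 2 * (a * m) ≤ Real.log 2 * (a * m) := mul_le_mul_of_nonneg_right h3 (by positivity)
    linarith
  rw [Real.rpow_neg (by norm_num), ← div_eq_mul_inv, div_le_div_iff₀ h4 ha]
  linarith

theorem eta_ge {ν : ℕ} (hν : 9 ≤ ν) : 1 / 18 ≤ eta ν := by
  have h1 : (9 : ℝ) ≤ ν := by exact_mod_cast hν
  have h2 : 4 / (ν : ℝ) ≤ 4 / 9 := div_le_div_of_nonneg_left (by norm_num) (by norm_num) h1
  unfold eta
  linarith

theorem delta_tend : Tendsto (fun M : ℕ => (2 : ℝ) ^ (3 - (M : ℝ))) atTop (𝓝 0) := by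
  have h1 : Tendsto (fun M : ℕ => (8 : ℝ) * (1 / 2) ^ M) atTop (𝓝 (8 * 0)) :=
    (tendsto_pow_atTop_nhds_zero_of_lt_one (by norm_num) (by norm_num)).const_mul 8
  rw [mul_zero] at h1
  refine h1.congr fun M => ?_
  rw [Real.rpow_sub (by norm_num), Real.rpow_natCast]
  have : (2 : ℝ) ^ (3 : ℝ) = 8 := by norm_num
  rw [this, one_div, inv_pow]
  rfl

/-- the sum condition -/
theorem est {q B κ : ℝ} {ν M : ℕ} (hq : 2 ≤ q) (hB : 0 ≤ B) (hκ : 0 < κ) (hκ2 : κ ≤ 1 / 36) (hν : 9 ≤ ν)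
    (hM : 3 ≤ M)
    (h1 : (2 : ℝ) ^ (3 - (M : ℝ)) * (96 * (∑' m : ℕ, ((2 : ℝ) ^ (-(1 / 24 : ℝ))) ^ m) +
      22 * (∑' m : ℕ, (m : ℝ) * ((2 : ℝ) ^ (-(1 / 24 : ℝ))) ^ m) +
      144 * B * (∑' m : ℕ, (m : ℝ) * ((2 : ℝ) ^ (-(κ / 2))) ^ m)) ≤ κ / 20)
    (h2 : 20 * (2 * B * (∑' m : ℕ, ((2 : ℝ) ^ (-(κ / 2))) ^ m) +
      Real.log (1 / (1 - (2 : ℝ) ^ (-(κ / 2))))) / κ ≤ 9 * ((M : ℝ) - 2))
    (c D : ℕ) (hc : ν * (c - 1) ≤ D) (hD : ν * (M - 2) ≤ D) (x : ℕ → ℝ)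
    (hx : ∀ m, 1 ≤ m → 2 * m < D → 0 ≤ x m ∧ x m ≤ Lm q ν M c m + Rm q B κ M m) :
    (∑ m ∈ (Icc 1 D).filter (fun m => 2 * m < D), x m / m * (1 + (q ^ (κ / 2)) ^ m)) +
      Real.log (q ^ (κ / 2) / (q ^ (κ / 2) - 1)) < (D : ℝ) / 2 * Real.log (q ^ (κ / 2)) := by
  obtain ⟨r₁, hr₁⟩ : ∃ r₁ : ℝ, r₁ = (2 : ℝ) ^ (-(1 / 24 : ℝ)) := ⟨_, rfl⟩
  obtain ⟨r₂, hr₂⟩ : ∃ r₂ : ℝ, r₂ = (2 : ℝ) ^ (-(κ / 2)) := ⟨_, rfl⟩
  obtain ⟨δ, hδ⟩ : ∃ δ : ℝ, δ = (2 : ℝ) ^ (3 - (M : ℝ)) := ⟨_, rfl⟩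
  obtain ⟨ρ, hρ⟩ : ∃ ρ : ℝ, ρ = q ^ (κ / 2) := ⟨_, rfl⟩
  rw [← hr₁, ← hr₂, ← hδ] at h1
  rw [← hr₂] at h2
  rw [← hρ]
  have hq0 : 0 < q := by linarith
  have hMr : (3 : ℝ) ≤ M := by exact_mod_cast hM
  have hνr : (9 : ℝ) ≤ ν := by exact_mod_cast hν
  have hr1p : 0 < r₁ := by rw [hr₁]; exact Real.rpow_pos_of_pos (by norm_num) _
  have hr1l : r₁ < 1 := by rw [hr₁]; exact Real.rpow_lt_one_of_one_lt_of_neg (by norm_num) (by norm_num)
  have hr2p : 0 < r₂ := by rw [hr₂]; exact Real.rpow_pos_of_pos (by norm_num) _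
  have hr2l : r₂ < 1 := by rw [hr₂]; exact Real.rpow_lt_one_of_one_lt_of_neg (by norm_num) (by linarith)
  have hδp : 0 < δ := by rw [hδ]; exact Real.rpow_pos_of_pos (by norm_num) _
  have hρ1 : 1 < ρ := by rw [hρ]; exact Real.one_lt_rpow (by linarith) (by linarith)
  -- powers
  have p1 : ∀ m : ℕ, q ^ (3 - (M : ℝ) - eta ν * m) * ρ ^ m ≤ δ * r₁ ^ m := by
    intro m
    have e1 : q ^ (3 - (M : ℝ) - eta ν * m) * ρ ^ m = q ^ (3 - (M : ℝ) - eta ν * m + κ / 2 * m) := by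
      rw [hρ, ← Real.rpow_mul_natCast hq0.le, ← Real.rpow_add hq0]
    have e2 : δ * r₁ ^ m = 2 ^ (3 - (M : ℝ) + -(1 / 24) * m) := by
      rw [hδ, hr₁, ← Real.rpow_mul_natCast (by norm_num), ← Real.rpow_add (by norm_num)]
    rw [e1, e2]
    refine pw hq ?_ ?_
    · have h3 := eta_ge hν
      have h4 : (1 / 24 : ℝ) * m ≤ (eta ν - κ / 2) * m :=
        mul_le_mul_of_nonneg_right (by linarith) (by positivity)
      linarith
    · have : (0 : ℝ) ≤ m := by positivity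
      linarith
  have p2 : ∀ m : ℕ, q ^ (3 - (M : ℝ) - κ * m) * ρ ^ m ≤ δ * r₂ ^ m := by
    intro m
    have e1 : q ^ (3 - (M : ℝ) - κ * m) * ρ ^ m = q ^ (3 - (M : ℝ) - κ * m + κ / 2 * m) := by
      rw [hρ, ← Real.rpow_mul_natCast hq0.le, ← Real.rpow_add hq0]
    have e2 : δ * r₂ ^ m = 2 ^ (3 - (M : ℝ) + -(κ / 2) * m) := by
      rw [hδ, hr₂, ← Real.rpow_mul_natCast (by norm_num), ← Real.rpow_add (by norm_num)]
    rw [e1, e2]
    have h3 : 0 ≤ κ * m := by positivity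
    refine pw hq ?_ ?_ <;> linarith
  have p3 : ∀ m : ℕ, q ^ (-(κ * m)) * ρ ^ m ≤ r₂ ^ m := by
    intro m
    have e1 : q ^ (-(κ * m)) * ρ ^ m = q ^ (-(κ * m) + κ / 2 * m) := by
      rw [hρ, ← Real.rpow_mul_natCast hq0.le, ← Real.rpow_add hq0]
    have e2 : r₂ ^ m = 2 ^ (-(κ / 2) * m) := by
      rw [hr₂, ← Real.rpow_mul_natCast (by norm_num)]
    rw [e1, e2]
    have h3 : 0 ≤ κ * m := by positivity
    refine pw hq ?_ ?_ <;> linarith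
  -- one term
  have term : ∀ m ∈ (Icc 1 D).filter (fun m => 2 * m < D), x m / m * (1 + ρ ^ m) ≤
      δ * (96 * (c + 3) * r₁ ^ m + 96 * (2 / 9) * (m * r₁ ^ m) + 144 * B * (m * r₂ ^ m)) +
        2 * B * r₂ ^ m := by
    intro m hm
    rw [mem_filter, mem_Icc] at hm
    have hm1 : (1 : ℝ) ≤ m := by exact_mod_cast hm.1.1
    have hm0 : (0 : ℝ) < m := by linarith
    obtain ⟨hx1, hx2⟩ := hx m hm.1.1 hm.2
    have hρm : 1 ≤ ρ ^ m := one_le_pow₀ hρ1.le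
    have h3 : x m / m * (1 + ρ ^ m) ≤ (Lm q ν M c m + Rm q B κ M m) / m * (2 * ρ ^ m) := by
      refine mul_le_mul (div_le_div_of_nonneg_right hx2 hm0.le) (by linarith) (by positivity) ?_
      exact div_nonneg (hx1.trans hx2) hm0.le
    refine h3.trans ?_
    have h4 : (Lm q ν M c m + Rm q B κ M m) / m * (2 * ρ ^ m) =
        96 * (c + 2 * m / ν + 3) * (q ^ (3 - (M : ℝ) - eta ν * m) * ρ ^ m) +
        144 * B * m * (q ^ (3 - (M : ℝ) - κ * m) * ρ ^ m) + 2 * B * (q ^ (-(κ * m)) * ρ ^ m) := by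
      unfold Lm Rm
      field_simp
      ring
    rw [h4]
    have h5 : (c : ℝ) + 2 * m / ν + 3 ≤ c + 3 + 2 / 9 * m := by
      have : 2 * (m : ℝ) / ν ≤ 2 * m / 9 := div_le_div_of_nonneg_left (by positivity) (by norm_num) hνr
      linarith
    have h6 : 96 * ((c : ℝ) + 2 * m / ν + 3) * (q ^ (3 - (M : ℝ) - eta ν * m) * ρ ^ m) ≤
        96 * (c + 3 + 2 / 9 * m) * (δ * r₁ ^ m) := by
      refine mul_le_mul (by linarith) (p1 m) ?_ (by positivity)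
      have := Real.rpow_pos_of_pos hq0 (3 - (M : ℝ) - eta ν * m)
      positivity
    have h7 : 144 * B * m * (q ^ (3 - (M : ℝ) - κ * m) * ρ ^ m) ≤ 144 * B * m * (δ * r₂ ^ m) :=
      mul_le_mul_of_nonneg_left (p2 m) (by positivity)
    have h8 : 2 * B * (q ^ (-(κ * m)) * ρ ^ m) ≤ 2 * B * r₂ ^ m :=
      mul_le_mul_of_nonneg_left (p3 m) (by positivity)
    refine (add_le_add (add_le_add h6 h7) h8).trans (le_of_eq ?_)
    ring
  -- summation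
  have s1 : Summable fun m : ℕ => r₁ ^ m := summable_geometric_of_lt_one hr1p.le hr1l
  have s2 : Summable fun m : ℕ => r₂ ^ m := summable_geometric_of_lt_one hr2p.le hr2l
  have s3 : Summable fun m : ℕ => (m : ℝ) * r₁ ^ m := by
    have := summable_pow_mul_geometric_of_norm_lt_one 1 (r := r₁) (by
      rw [Real.norm_of_nonneg hr1p.le]; exact hr1l)
    simpa using this
  have s4 : Summable fun m : ℕ => (m : ℝ) * r₂ ^ m := by
    have := summable_pow_mul_geometric_of_norm_lt_one 1 (r := r₂) (by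
      rw [Real.norm_of_nonneg hr2p.le]; exact hr2l)
    simpa using this
  obtain ⟨S, hS⟩ : ∃ S : Finset ℕ, S = (Icc 1 D).filter (fun m => 2 * m < D) := ⟨_, rfl⟩
  rw [← hS] at term ⊢
  have t1 : ∑ m ∈ S, r₁ ^ m ≤ ∑' m : ℕ, r₁ ^ m := s1.sum_le_tsum _ fun _ _ => by positivity
  have t2 : ∑ m ∈ S, r₂ ^ m ≤ ∑' m : ℕ, r₂ ^ m := s2.sum_le_tsum _ fun _ _ => by positivity
  have t3 : ∑ m ∈ S, (m : ℝ) * r₁ ^ m ≤ ∑' m : ℕ, (m : ℝ) * r₁ ^ m :=
    s3.sum_le_tsum _ fun _ _ => by positivity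
  have t4 : ∑ m ∈ S, (m : ℝ) * r₂ ^ m ≤ ∑' m : ℕ, (m : ℝ) * r₂ ^ m :=
    s4.sum_le_tsum _ fun _ _ => by positivity
  obtain ⟨A₀, hA₀⟩ : ∃ A₀ : ℝ, A₀ = ∑' m : ℕ, r₁ ^ m := ⟨_, rfl⟩
  obtain ⟨A₁, hA₁⟩ : ∃ A₁ : ℝ, A₁ = ∑' m : ℕ, (m : ℝ) * r₁ ^ m := ⟨_, rfl⟩
  obtain ⟨C₀, hC₀⟩ : ∃ C₀ : ℝ, C₀ = ∑' m : ℕ, r₂ ^ m := ⟨_, rfl⟩
  obtain ⟨C₁, hC₁⟩ : ∃ C₁ : ℝ, C₁ = ∑' m : ℕ, (m : ℝ) * r₂ ^ m := ⟨_, rfl⟩
  rw [← hA₀] at t1
  rw [← hA₁] at t3
  rw [← hC₀] at t2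
  rw [← hC₁] at t4
  rw [← hA₀, ← hA₁, ← hC₁] at h1
  rw [← hC₀] at h2
  have A0 : 0 ≤ A₀ := le_trans (sum_nonneg fun _ _ => by positivity) t1
  have A1 : 0 ≤ A₁ := le_trans (sum_nonneg fun _ _ => by positivity) t3
  have C0 : 0 ≤ C₀ := le_trans (sum_nonneg fun _ _ => by positivity) t2
  have C1 : 0 ≤ C₁ := le_trans (sum_nonneg fun _ _ => by positivity) t4
  have hsum : ∑ m ∈ S, x m / m * (1 + ρ ^ m) ≤
      δ * (96 * (c + 3) * A₀ + 96 * (2 / 9) * A₁ + 144 * B * C₁) + 2 * B * C₀ := by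
    refine (sum_le_sum term).trans ?_
    rw [sum_add_distrib, ← mul_sum, ← mul_sum, sum_add_distrib, sum_add_distrib, ← mul_sum, ← mul_sum,
      ← mul_sum]
    have u1 : 96 * ((c : ℝ) + 3) * ∑ m ∈ S, r₁ ^ m ≤ 96 * (c + 3) * A₀ :=
      mul_le_mul_of_nonneg_left t1 (by positivity)
    have u2 : 96 * (2 / 9 : ℝ) * ∑ m ∈ S, (m : ℝ) * r₁ ^ m ≤ 96 * (2 / 9) * A₁ :=
      mul_le_mul_of_nonneg_left t3 (by positivity)
    have u3 : 144 * B * ∑ m ∈ S, (m : ℝ) * r₂ ^ m ≤ 144 * B * C₁ :=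
      mul_le_mul_of_nonneg_left t4 (by positivity)
    have u4 : 2 * B * ∑ m ∈ S, r₂ ^ m ≤ 2 * B * C₀ := mul_le_mul_of_nonneg_left t2 (by positivity)
    have u5 := mul_le_mul_of_nonneg_left (add_le_add (add_le_add u1 u2) u3) hδp.le
    exact add_le_add u5 u4
  -- the logarithm on the left
  have hlog : Real.log (ρ / (ρ - 1)) ≤ Real.log (1 / (1 - r₂)) := by
    have h3 : 1 / ρ ≤ r₂ := by
      have : 1 / ρ = q ^ (-(κ / 2)) := by rw [Real.rpow_neg hq0.le, hρ, one_div]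
      rw [this, hr₂]
      exact pw hq le_rfl (by linarith)
    have h4 : ρ / (ρ - 1) = 1 / (1 - 1 / ρ) := by
      have : ρ - 1 ≠ 0 := by linarith
      have : ρ ≠ 0 := by linarith
      field_simp
    rw [h4]
    refine Real.log_le_log ?_ ?_
    · have : 1 - 1 / ρ > 0 := by linarith
      positivity
    · exact div_le_div_of_nonneg_left zero_le_one (by linarith) (by linarith)
  -- the right side
  have hDr : 9 * ((M : ℝ) - 2) ≤ D := by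
    have h3 : ((ν * (M - 2) : ℕ) : ℝ) ≤ D := by exact_mod_cast hD
    rw [Nat.cast_mul, Nat.cast_sub (by omega)] at h3
    push_cast at h3
    have h4 : 9 * ((M : ℝ) - 2) ≤ ν * ((M : ℝ) - 2) := mul_le_mul_of_nonneg_right hνr (by linarith)
    linarith
  have hD9 : (9 : ℝ) ≤ D := by linarith
  have hcr : (c : ℝ) ≤ D / 9 + 1 := by
    have h3 : 9 * (c - 1) ≤ D := (Nat.mul_le_mul_right _ hν).trans hc
    have h4 : 9 * c ≤ D + 9 := by omega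
    have h5 : 9 * (c : ℝ) ≤ D + 9 := by exact_mod_cast h4
    linarith
  have hright : (D : ℝ) * κ / 6 ≤ (D : ℝ) / 2 * Real.log ρ := by
    rw [hρ, Real.log_rpow hq0]
    have h3 : Real.log 2 ≤ Real.log q := Real.log_le_log (by norm_num) hq
    have h4 := Real.log_two_gt_d9
    have h5 : (2 : ℝ) / 3 ≤ Real.log q := by linarith
    have h6 : 0 ≤ (D : ℝ) / 2 * (κ / 2) := by positivity
    have h7 := mul_le_mul_of_nonneg_left h5 h6
    linarith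
  have h3 : δ * (96 * ((c : ℝ) + 3) * A₀ + 96 * (2 / 9) * A₁ + 144 * B * C₁) ≤ D * (κ / 20) := by
    have e1 : 96 * ((c : ℝ) + 3) * A₀ + 96 * (2 / 9) * A₁ + 144 * B * C₁ ≤
        D * (96 * A₀ + 22 * A₁ + 144 * B * C₁) := by
      have f1 : 96 * ((c : ℝ) + 3) * A₀ ≤ 96 * D * A₀ :=
        mul_le_mul_of_nonneg_right (by linarith) A0
      have f2 : 96 * (2 / 9) * A₁ ≤ 22 * D * A₁ := mul_le_mul_of_nonneg_right (by linarith) A1
      have f3 : 144 * B * C₁ ≤ D * (144 * B * C₁) :=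
        le_mul_of_one_le_left (by positivity) (by linarith)
      linarith
    have e2 := mul_le_mul_of_nonneg_left e1 hδp.le
    have e3 := mul_le_mul_of_nonneg_left h1 (show (0 : ℝ) ≤ D by positivity)
    linarith
  have h4 : 2 * B * C₀ + Real.log (1 / (1 - r₂)) ≤ D * (κ / 20) := by
    have e1 := h2.trans hDr
    rw [div_le_iff₀ hκ] at e1
    linarith
  have h5 : 0 < (D : ℝ) * κ := by positivity
  linarith

theorem t_NUM : Pool.Agent.Q284.GE.S_NUM := by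
  intro r₀ B κ hr hB hκ hκ2
  obtain ⟨C₁, hC₁⟩ : ∃ C₁ : ℝ, C₁ = 96 * (∑' m : ℕ, ((2 : ℝ) ^ (-(1 / 24 : ℝ))) ^ m) +
      22 * (∑' m : ℕ, (m : ℝ) * ((2 : ℝ) ^ (-(1 / 24 : ℝ))) ^ m) +
      144 * B * (∑' m : ℕ, (m : ℝ) * ((2 : ℝ) ^ (-(κ / 2))) ^ m) := ⟨_, rfl⟩
  obtain ⟨C₂, hC₂⟩ : ∃ C₂ : ℝ, C₂ = 20 * (2 * B * (∑' m : ℕ, ((2 : ℝ) ^ (-(κ / 2))) ^ m) +
      Real.log (1 / (1 - (2 : ℝ) ^ (-(κ / 2))))) / κ := ⟨_, rfl⟩
  have hlim : ∀ C : ℝ, ∀ ε : ℝ, 0 < ε → ∀ᶠ M : ℕ in atTop, (2 : ℝ) ^ (3 - (M : ℝ)) * C ≤ ε := by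
    intro C ε hε
    have h1 := delta_tend.mul_const C
    rw [zero_mul] at h1
    exact (h1.eventually (gt_mem_nhds hε)).mono fun M hM => hM.le
  have hlin : ∀ C : ℝ, ∀ᶠ M : ℕ in atTop, C ≤ 9 * ((M : ℝ) - 2) := by
    intro C
    filter_upwards [eventually_ge_atTop (⌈C⌉₊ + 3)] with M hM
    have h1 : C ≤ ⌈C⌉₊ := Nat.le_ceil C
    have h2 : ((⌈C⌉₊ + 3 : ℕ) : ℝ) ≤ M := by exact_mod_cast hM
    push_cast at h2
    have h3 : (0 : ℝ) ≤ ⌈C⌉₊ := by positivity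
    linarith
  obtain ⟨M₁, hM₁⟩ := eventually_atTop.1 ((hlim C₁ (κ / 20) (by positivity)).and
    ((hlin C₂).and ((hlim (48 * 360) r₀ hr).and ((hlim (72 * B * (2 / κ)) (1 / 2) (by norm_num)).and
    ((hlin (4 * (B * (2 / κ)))).and (hlim 320 (1 / 2) (by norm_num)))))))
  refine ⟨max M₁ 3, le_max_right _ _, fun M hM q ν hq hν => ?_⟩
  obtain ⟨g1, g2, g3, g4, g5, g6⟩ := hM₁ M ((le_max_left _ _).trans hM)
  have hM3 : 3 ≤ M := (le_max_right _ _).trans hM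
  have hq0 : 0 < q := by linarith
  have hMr : (3 : ℝ) ≤ M := by exact_mod_cast hM3
  have hνr : (9 : ℝ) ≤ ν := by exact_mod_cast hν
  have hη := eta_ge hν
  obtain ⟨δ, hδ⟩ : ∃ δ : ℝ, δ = (2 : ℝ) ^ (3 - (M : ℝ)) := ⟨_, rfl⟩
  have hδp : 0 < δ := by rw [hδ]; exact Real.rpow_pos_of_pos (by norm_num) _
  have hj : ∀ j : ℕ, ν * (M - 2) ≤ 2 * j → 9 * ((M : ℝ) - 2) ≤ 2 * j := by
    intro j hj
    have h3 : ((ν * (M - 2) : ℕ) : ℝ) ≤ 2 * j := by exact_mod_cast hj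
    rw [Nat.cast_mul, Nat.cast_sub (by omega)] at h3
    push_cast at h3
    have h4 : 9 * ((M : ℝ) - 2) ≤ ν * ((M : ℝ) - 2) := mul_le_mul_of_nonneg_right hνr (by linarith)
    linarith
  refine ⟨fun c D h1 h2 x hx => est hq hB hκ hκ2 hν hM3 (by rw [← hC₁]; exact g1)
    (by rw [← hC₂]; exact g2) c D h1 h2 x hx, ?_, ?_, ?_⟩
  · -- sm
    intro j _
    unfold al
    split_ifs with h
    · have e1 : q ^ (3 - (M : ℝ) - eta ν * j) =
          q ^ (3 - (M : ℝ) - 1 / 10 * eta ν * j) * q ^ (-(9 / 10 * eta ν * j)) := by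
        rw [← Real.rpow_add hq0]
        congr 1
        ring
      have e2 : q ^ (3 - (M : ℝ) - 1 / 10 * eta ν * j) ≤ δ * 2 ^ (-(1 / 180 * (j : ℝ))) := by
        rw [hδ, ← Real.rpow_add (by norm_num)]
        refine pw hq ?_ ?_
        · have : (1 / 180 : ℝ) * j ≤ 1 / 10 * eta ν * j :=
            mul_le_mul_of_nonneg_right (by linarith) (by positivity)
          linarith
        · have : (0 : ℝ) ≤ j := by positivity
          linarith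
      have e3 := lin (1 / 180) (by norm_num) j
      have e4 : 48 * (j : ℝ) * q ^ (3 - (M : ℝ) - 1 / 10 * eta ν * j) ≤ r₀ := by
        calc 48 * (j : ℝ) * q ^ (3 - (M : ℝ) - 1 / 10 * eta ν * j)
            ≤ 48 * j * (δ * 2 ^ (-(1 / 180 * (j : ℝ)))) := mul_le_mul_of_nonneg_left e2 (by positivity)
          _ = 48 * δ * (j * 2 ^ (-(1 / 180 * (j : ℝ)))) := by ring
          _ ≤ 48 * δ * (2 / (1 / 180)) := mul_le_mul_of_nonneg_left e3 (by positivity)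
          _ = δ * (48 * 360) := by ring
          _ ≤ r₀ := by rw [hδ]; exact g3
      rw [e1, ← mul_assoc]
      exact mul_le_mul_of_nonneg_right e4 (Real.rpow_pos_of_pos hq0 _).le
    · exact mul_nonneg hr.le (Real.rpow_pos_of_pos hq0 _).le
  · -- pp
    intro j h
    have h1 := hj j h
    have hjp : (0 : ℝ) < j := by linarith
    have e1 : q ^ (3 - (M : ℝ) - κ * j) ≤ δ * 2 ^ (-(κ * j)) := by
      rw [hδ, ← Real.rpow_add (by norm_num)]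
      have : 0 ≤ κ * j := by positivity
      refine pw hq ?_ ?_ <;> linarith
    have e2 : q ^ (-(κ * j)) ≤ 2 ^ (-(κ * j)) := by
      have : 0 ≤ κ * j := by positivity
      exact pw hq le_rfl (by linarith)
    have e3 := lin κ hκ j
    have e4 : 72 * B * (j : ℝ) * q ^ (3 - (M : ℝ) - κ * j) ≤ 1 / 2 := by
      calc 72 * B * (j : ℝ) * q ^ (3 - (M : ℝ) - κ * j)
          ≤ 72 * B * j * (δ * 2 ^ (-(κ * j))) := mul_le_mul_of_nonneg_left e1 (by positivity)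
        _ = 72 * B * δ * (j * 2 ^ (-(κ * j))) := by ring
        _ ≤ 72 * B * δ * (2 / κ) := mul_le_mul_of_nonneg_left e3 (by positivity)
        _ = δ * (72 * B * (2 / κ)) := by ring
        _ ≤ 1 / 2 := by rw [hδ]; exact g4
    have e5 : B * q ^ (-(κ * j)) ≤ 1 / 2 := by
      have f1 : B * q ^ (-(κ * j)) ≤ B * 2 ^ (-(κ * j)) := mul_le_mul_of_nonneg_left e2 hB
      refine f1.trans ?_
      have f2 : B * (j * 2 ^ (-(κ * j))) ≤ B * (2 / κ) := mul_le_mul_of_nonneg_left e3 hB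
      have f3 : B * (2 / κ) ≤ j / 2 := by linarith
      have f4 : (B * 2 ^ (-(κ * j))) * j ≤ 1 / 2 * j := by linarith
      exact le_of_mul_le_mul_right f4 hjp
    unfold Rm
    have e6 : 72 * B * (j : ℝ) ^ 2 * q ^ (3 - (M : ℝ) - κ * j) + B * j * q ^ (-(κ * j)) =
        j * (72 * B * (j : ℝ) * q ^ (3 - (M : ℝ) - κ * j) + B * q ^ (-(κ * j))) := by ring
    rw [e6]
    exact mul_le_of_le_one_right hjp.le (by linarith)
  · -- dd
    intro j h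
    have h1 := hj j h
    have hjp : (0 : ℝ) < j := by linarith
    have hj5 : 5 ≤ j := by
      have : (4 : ℝ) < j := by linarith
      exact_mod_cast this
    have e1 : q ^ (3 - (M : ℝ) - eta ν * j) ≤ δ * 2 ^ (-(1 / 18 * (j : ℝ))) := by
      rw [hδ, ← Real.rpow_add (by norm_num)]
      refine pw hq ?_ ?_
      · have : (1 / 18 : ℝ) * j ≤ eta ν * j := mul_le_mul_of_nonneg_right hη (by positivity)
        linarith
      · linarith
    have e2 := lin (1 / 18) (by norm_num) j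
    have e3 : (2 : ℝ) ^ (-(1 / 18 * (j : ℝ))) ≤ 1 :=
      Real.rpow_le_one_of_one_le_of_nonpos (by norm_num) (by linarith)
    have e4 : 4 * (j : ℝ) / ν + 4 ≤ 4 / 9 * j + 4 := by
      have : 4 * (j : ℝ) / ν ≤ 4 * j / 9 := div_le_div_of_nonneg_left (by positivity) (by norm_num) hνr
      linarith
    have e5 : 2 * (j : ℝ) / ν + 1 ≤ 2 / 9 * j + 1 := by
      have : 2 * (j : ℝ) / ν ≤ 2 * j / 9 := div_le_div_of_nonneg_left (by positivity) (by norm_num) hνr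
      linarith
    have hp := Real.rpow_pos_of_pos hq0 (3 - (M : ℝ) - eta ν * j)
    have hp2 := Real.rpow_pos_of_pos hq0 (-(j : ℝ))
    have e6 : 16 * q ^ (3 - (M : ℝ) - eta ν * j) * (4 * j / ν + 4) ≤ 1 / 2 := by
      calc 16 * q ^ (3 - (M : ℝ) - eta ν * j) * (4 * j / ν + 4)
          ≤ 16 * (δ * 2 ^ (-(1 / 18 * (j : ℝ)))) * (4 / 9 * j + 4) := by
            refine mul_le_mul (by linarith) e4 (by positivity) (by positivity)
        _ = 16 * δ * (4 / 9 * (j * 2 ^ (-(1 / 18 * (j : ℝ)))) + 4 * 2 ^ (-(1 / 18 * (j : ℝ)))) := by ring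
        _ ≤ 16 * δ * (4 / 9 * (2 / (1 / 18)) + 4 * 1) :=
            mul_le_mul_of_nonneg_left (by linarith) (by positivity)
        _ = δ * 320 := by ring
        _ ≤ 1 / 2 := by rw [hδ]; exact g6
    have e7 : q ^ (-(j : ℝ)) ≤ 1 / 2 ^ j := by
      have f1 : q ^ (-(j : ℝ)) ≤ 2 ^ (-(j : ℝ)) := pw hq le_rfl (by linarith)
      have f2 : (2 : ℝ) ^ (-(j : ℝ)) = 1 / 2 ^ j := by
        rw [Real.rpow_neg (by norm_num), Real.rpow_natCast, one_div]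
      rwa [f2] at f1
    have e8 : 16 * j + 72 ≤ 9 * 2 ^ j := by
      obtain ⟨i, rfl⟩ : ∃ i, j = 5 + i := ⟨j - 5, by omega⟩
      clear * -
      induction i with
      | zero => norm_num
      | succ i ih =>
        rw [← add_assoc, pow_succ]
        omega
    have e9 : 16 * (j : ℝ) + 72 ≤ 9 * 2 ^ j := by exact_mod_cast e8
    have e10 : 4 * (2 * (j : ℝ) / ν + 1) * q ^ (-(j : ℝ)) ≤ 1 / 2 := by
      calc 4 * (2 * (j : ℝ) / ν + 1) * q ^ (-(j : ℝ))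
          ≤ 4 * (2 / 9 * j + 1) * (1 / 2 ^ j) :=
            mul_le_mul (by linarith) e7 hp2.le (by positivity)
        _ ≤ 1 / 2 := by
            rw [mul_one_div, div_le_div_iff₀ (by positivity) (by norm_num)]
            linarith
    linarith

end Pool.Agent.Q224.GE
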