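import Pool.Agent.Q284.GE.Stm2
import Pool.Agent.Q277.PS.Fac

/-!
# Project GE of helper284, job EUC (absolute convergence of the Euler product)
-/

set_option autoImplicit false

open Finset Polynomial ComplexConjugate
open Pool.Agent.H341R2.Sharp (Mon mem_Mon)

namespace Pool.Agent.Q224.GE

open Pool.Agent.Q284.PS (PD PI qq)
open Pool.Agent.Q277.PS (mem_PD mem_PI)

theorem t_EUC (hP : Pool.Agent.Q284.GE.S_PLB) : Pool.Agent.Q284.GE.S_EUC := by
  intro F _ _ e v δ ϑ σ hϑ h1 h2 hv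
  classical
  obtain ⟨q, hq⟩ : ∃ q : ℝ, q = qq F := ⟨_, rfl⟩
  rw [← hq] at hv ⊢
  have hq2 : 1 < q := by
    rw [hq]
    unfold qq
    exact_mod_cast Fintype.one_lt_card
  have hq0 : 0 < q := by linarith
  obtain ⟨r₁, hr₁⟩ : ∃ r₁ : ℝ, r₁ = q ^ (1 - δ - σ) := ⟨_, rfl⟩
  obtain ⟨r₂, hr₂⟩ : ∃ r₂ : ℝ, r₂ = q ^ (1 / 2 + ϑ - σ) := ⟨_, rfl⟩
  have r1p : 0 < r₁ := by rw [hr₁]; exact Real.rpow_pos_of_pos hq0 _
  have r2p : 0 < r₂ := by rw [hr₂]; exact Real.rpow_pos_of_pos hq0 _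
  have r1l : r₁ < 1 := by rw [hr₁]; exact Real.rpow_lt_one_of_one_lt_of_neg hq2 (by linarith)
  have r2l : r₂ < 1 := by rw [hr₂]; exact Real.rpow_lt_one_of_one_lt_of_neg hq2 (by linarith)
  -- the bound
  have key : ∀ m : ℕ, 1 ≤ m → (∑ P ∈ PD F m, |v P (m / P.natDegree)|) * (q ^ (-σ)) ^ m ≤
      r₁ ^ m + 2 / r₂ * (((m + 1 : ℕ) : ℝ) ^ e * r₂ ^ (m + 1)) := by
    intro m hm
    obtain ⟨p1, -, p3⟩ := hP F m hm
    have hsplit := Finset.sum_filter_add_sum_filter_not (PD F m) (fun P => P.natDegree < m)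
      (fun P => |v P (m / P.natDegree)|)
    have e1 : ∑ P ∈ (PD F m).filter (fun P => ¬ P.natDegree < m), |v P (m / P.natDegree)| ≤
        q ^ m * q ^ (-(δ * m)) := by
      have s1 : (PD F m).filter (fun P => ¬ P.natDegree < m) ⊆ PI F m := by
        intro P hPm
        rw [mem_filter, mem_PD] at hPm
        rw [mem_PI]
        exact ⟨hPm.1.1, by omega, hPm.1.2.2.1⟩
      have s2 : ∀ P ∈ PI F m, |v P (m / P.natDegree)| ≤ q ^ (-(δ * m)) := by
        intro P hPm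
        rw [mem_PI] at hPm
        obtain ⟨a1, a2, a3⟩ := hPm
        have := (hv P a1 a3).1
        rw [a2] at this ⊢
        rwa [Nat.div_self (by omega)]
      refine (sum_le_sum_of_subset_of_nonneg s1 fun _ _ _ => abs_nonneg _).trans ?_
      refine (sum_le_sum s2).trans ?_
      rw [sum_const, nsmul_eq_mul]
      refine mul_le_mul_of_nonneg_right ?_ (Real.rpow_pos_of_pos hq0 _).le
      have p2 : (PI F m).card ≤ Fintype.card F ^ m := le_trans (Nat.le_mul_of_pos_left _ (by omega)) p1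
      rw [hq]
      unfold qq
      exact_mod_cast p2
    have e2 : ∑ P ∈ (PD F m).filter (fun P => P.natDegree < m), |v P (m / P.natDegree)| ≤
        ((m : ℝ) + 1) ^ e * q ^ (ϑ * m) * (2 * Real.sqrt q ^ m) := by
      have s2 : ∀ P ∈ (PD F m).filter (fun P => P.natDegree < m), |v P (m / P.natDegree)| ≤
          ((m : ℝ) + 1) ^ e * q ^ (ϑ * m) * (P.natDegree : ℝ) := by
        intro P hPm
        rw [mem_filter, mem_PD] at hPm
        obtain ⟨⟨a1, a2, a3, a4⟩, a5⟩ := hPm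
        have b1 := (hv P a1 a3).2 (m / P.natDegree)
        have b2 : (q ^ (ϑ * P.natDegree)) ^ (m / P.natDegree) = q ^ (ϑ * m) := by
          rw [← Real.rpow_mul_natCast hq0.le]
          congr 1
          have : ((P.natDegree : ℕ) : ℝ) * ((m / P.natDegree : ℕ) : ℝ) = m := by
            rw [← Nat.cast_mul, Nat.mul_div_cancel' a4]
          rw [mul_assoc, this]
        rw [b2] at b1
        have b3 : (((m / P.natDegree : ℕ) : ℝ) + 1) ^ e ≤ ((m : ℝ) + 1) ^ e := by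
          refine pow_le_pow_left₀ (by positivity) ?_ _
          have : ((m / P.natDegree : ℕ) : ℝ) ≤ m := by exact_mod_cast Nat.div_le_self _ _
          linarith
        have b4 : 0 < q ^ (ϑ * m) := Real.rpow_pos_of_pos hq0 _
        have b5 : (1 : ℝ) ≤ P.natDegree := by exact_mod_cast a3.natDegree_pos
        have b6 : 0 ≤ ((m : ℝ) + 1) ^ e * q ^ (ϑ * m) := by positivity
        calc |v P (m / P.natDegree)| ≤ (((m / P.natDegree : ℕ) : ℝ) + 1) ^ e * q ^ (ϑ * m) := b1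
          _ ≤ ((m : ℝ) + 1) ^ e * q ^ (ϑ * m) := mul_le_mul_of_nonneg_right b3 b4.le
          _ ≤ _ := le_mul_of_one_le_right b6 b5
      refine (sum_le_sum s2).trans ?_
      rw [← mul_sum]
      have b4 : 0 < q ^ (ϑ * m) := Real.rpow_pos_of_pos hq0 _
      refine mul_le_mul_of_nonneg_left ?_ (by positivity)
      rw [← hq] at p3
      convert p3 using 2
    have e3 : (∑ P ∈ PD F m, |v P (m / P.natDegree)|) ≤ q ^ m * q ^ (-(δ * m)) +
        ((m : ℝ) + 1) ^ e * q ^ (ϑ * m) * (2 * Real.sqrt q ^ m) := by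
      rw [← hsplit]
      linarith
    have e4 : 0 ≤ (q ^ (-σ)) ^ m := pow_nonneg (Real.rpow_pos_of_pos hq0 _).le _
    refine (mul_le_mul_of_nonneg_right e3 e4).trans (le_of_eq ?_)
    have f1 : q ^ m * q ^ (-(δ * m)) * (q ^ (-σ)) ^ m = r₁ ^ m := by
      rw [hr₁, ← Real.rpow_mul_natCast hq0.le, ← Real.rpow_mul_natCast hq0.le, ← Real.rpow_natCast q m,
        ← Real.rpow_add hq0, ← Real.rpow_add hq0]
      congr 1
      ring
    have f2 : q ^ (ϑ * m) * Real.sqrt q ^ m * (q ^ (-σ)) ^ m = r₂ ^ m := by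
      rw [hr₂, Real.sqrt_eq_rpow, ← Real.rpow_mul_natCast hq0.le, ← Real.rpow_mul_natCast hq0.le,
        ← Real.rpow_mul_natCast hq0.le, ← Real.rpow_add hq0, ← Real.rpow_add hq0]
      congr 1
      ring
    rw [add_mul, f1]
    congr 1
    calc ((m : ℝ) + 1) ^ e * q ^ (ϑ * m) * (2 * Real.sqrt q ^ m) * (q ^ (-σ)) ^ m
        = 2 * ((m : ℝ) + 1) ^ e * (q ^ (ϑ * m) * Real.sqrt q ^ m * (q ^ (-σ)) ^ m) := by ring
      _ = 2 * ((m : ℝ) + 1) ^ e * r₂ ^ m := by rw [f2]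
      _ = _ := by
        push_cast
        rw [pow_succ]
        field_simp
  have s1 : Summable fun m : ℕ => r₁ ^ m := summable_geometric_of_lt_one r1p.le r1l
  have s2 : Summable fun m : ℕ => (m : ℝ) ^ e * r₂ ^ m :=
    summable_pow_mul_geometric_of_norm_lt_one e (by rw [Real.norm_of_nonneg r2p.le]; exact r2l)
  have s3 : Summable fun j : ℕ => r₁ ^ (j + 1) := (summable_nat_add_iff 1).2 s1
  have s4 : Summable fun j : ℕ => (((j + 1 + 1 : ℕ) : ℝ)) ^ e * r₂ ^ (j + 1 + 1) :=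
    (summable_nat_add_iff (f := fun m : ℕ => (m : ℝ) ^ e * r₂ ^ m) 2).2 s2
  refine Summable.of_nonneg_of_le (fun j => ?_) (fun j => key (j + 1) (by omega))
    (s3.add (s4.mul_left (2 / r₂)))
  exact mul_nonneg (sum_nonneg fun _ _ => abs_nonneg _) (pow_nonneg (Real.rpow_pos_of_pos hq0 _).le _)

end Pool.Agent.Q224.GE
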