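import Pool.Agent.Q284.GE.Stm
import Pool.Agent.Q237.PX.AFM

/-!
# Project GE of helper284, job LGD (logarithmic derivative)
-/

set_option autoImplicit false

open Finset Polynomial ComplexConjugate
open Pool.Agent.H341R2.Sharp (Mon mem_Mon)

namespace Pool.Agent.Q224.GE

open Pool.Agent.Q284.PS (CM PD)
open Pool.Agent.Q284.PX (AF ef)
open Pool.Agent.Q277.PS (part_facts mem_nf_iff pow_dvd_iff_count deg_sum nf_mem mem_PD)
open Pool.Agent.Q237.PX (AF_mul AF_pow AF_one)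
open UniqueFactorizationMonoid

variable {F : Type} [Field F]

theorem chi_pow {χ : F[X] → ℂ} (hχ : CM χ) {P : F[X]} (hP : P.Monic) (k : ℕ) :
    χ (P ^ k) = χ P ^ k := by
  induction k with
  | zero => rw [pow_zero, pow_zero, hχ.1]
  | succ k ih => rw [pow_succ, hχ.2 _ _ (hP.pow k) hP, ih, pow_succ]

open Classical in
/-- the local identity -/
theorem loc [Fintype F] {v p : F[X] → ℕ → ℝ} (hv : ∀ P : F[X], v P 0 = 1)
    (hp : ∀ P : F[X], P.Monic → Irreducible P → ∀ k : ℕ, 1 ≤ k →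
      (k : ℝ) * v P k = ∑ m ∈ Icc 1 k, p P m * v P (k - m))
    {χ : F[X] → ℂ} (hχ : CM χ) {f P : F[X]} (hf : f.Monic) (hP : P ∈ normalizedFactors f) :
    (((normalizedFactors f).count P : ℕ) : ℂ) * ((AF v f : ℂ) * χ f) =
      ∑ m ∈ Icc 1 ((normalizedFactors f).count P),
        (p P m : ℂ) * χ P ^ m * ((AF v (f /ₘ P ^ m) : ℂ) * χ (f /ₘ P ^ m)) := by
  obtain ⟨c, hc⟩ : ∃ c, c = (normalizedFactors f).count P := ⟨_, rfl⟩
  rw [← hc]
  obtain ⟨a1, a2, a3, a4, a5, a6, -⟩ := part_facts hf hP hc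
  obtain ⟨g, hg⟩ : ∃ g, g = f /ₘ P ^ c := ⟨_, rfl⟩
  rw [← hg] at a4 a5 a6
  have hdiv : ∀ m ∈ Icc 1 c, f /ₘ P ^ m = P ^ (c - m) * g := by
    intro m hm
    rw [mem_Icc] at hm
    have h1 : f = P ^ m * (P ^ (c - m) * g) := by
      rw [← mul_assoc, ← pow_add, Nat.add_sub_cancel' hm.2]
      exact a4
    conv_lhs => rw [h1]
    exact mul_divByMonic_cancel_left _ (a1.pow m)
  have hcop : ∀ k, k ≤ c → IsCoprime (P ^ k) g := by
    intro k hk
    have h1 : P ^ k ∣ P ^ c := pow_dvd_pow _ hk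
    exact a6.of_isCoprime_of_dvd_left h1
  have hA : ∀ k, k ≤ c → AF v (P ^ k * g) = v P k * AF v g := by
    intro k hk
    rw [AF_mul v _ _ (a1.pow k).ne_zero a5.ne_zero (hcop k hk), AF_pow v hv P k a1 a2]
  have hX : ∀ k, χ (P ^ k * g) = χ P ^ k * χ g := by
    intro k
    rw [hχ.2 _ _ (a1.pow k) a5, chi_pow hχ a1]
  rw [a4, hA c le_rfl, hX]
  have h1 := hp P a1 a2 c a3
  have h2 : (c : ℂ) * (v P c : ℂ) = ∑ m ∈ Icc 1 c, (p P m : ℂ) * (v P (c - m) : ℂ) := by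
    exact_mod_cast congrArg (fun x : ℝ => (x : ℂ)) h1
  calc (c : ℂ) * (((v P c * AF v g : ℝ) : ℂ) * (χ P ^ c * χ g))
      = ((c : ℂ) * (v P c : ℂ)) * ((AF v g : ℂ) * (χ P ^ c * χ g)) := by push_cast; ring
    _ = ∑ m ∈ Icc 1 c, (p P m : ℂ) * (v P (c - m) : ℂ) * ((AF v g : ℂ) * (χ P ^ c * χ g)) := by
        rw [h2, sum_mul]
    _ = _ := by
        refine sum_congr rfl fun m hm => ?_
        rw [← a4, hdiv m hm, hA (c - m) (by omega), hX]
        have hm' := mem_Icc.1 hm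
        have h3 : χ P ^ c = χ P ^ m * χ P ^ (c - m) := by
          rw [← pow_add, Nat.add_sub_cancel' hm'.2]
        rw [h3]
        push_cast
        ring

variable [Fintype F]

open Classical in
theorem lgd {v p : F[X] → ℕ → ℝ} (hv : ∀ P : F[X], v P 0 = 1)
    (hp : ∀ P : F[X], P.Monic → Irreducible P → ∀ k : ℕ, 1 ≤ k →
      (k : ℝ) * v P k = ∑ m ∈ Icc 1 k, p P m * v P (k - m))
    {χ : F[X] → ℂ} (hχ : CM χ) (n : ℕ) : (n : ℂ) * ef v χ n =
    ∑ m ∈ Icc 1 n, (∑ P ∈ PD F m, (P.natDegree : ℂ) * (p P (m / P.natDegree) : ℂ) * χ P ^ (m / P.natDegree)) *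
      ef v χ (n - m) := by
  obtain ⟨Φ, hΦ⟩ : ∃ Φ : F[X] → ℕ → F[X] → ℂ, Φ = fun P m g =>
    (P.natDegree : ℂ) * ((p P m : ℂ) * χ P ^ m * ((AF v g : ℂ) * χ g)) := ⟨_, rfl⟩
  have hL : (n : ℂ) * ef v χ n = ∑ x ∈ (Mon F n).sigma (fun f =>
      ((normalizedFactors f).toFinset).sigma (fun P => Icc 1 ((normalizedFactors f).count P))),
      Φ x.2.1 x.2.2 (x.1 /ₘ x.2.1 ^ x.2.2) := by
    rw [sum_sigma]
    unfold ef
    rw [mul_sum]
    refine sum_congr rfl fun f hf => ?_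
    rw [mem_Mon] at hf
    rw [sum_sigma]
    have h1 : (n : ℂ) = ∑ P ∈ (normalizedFactors f).toFinset,
        (((normalizedFactors f).count P * P.natDegree : ℕ) : ℂ) := by
      rw [← Nat.cast_sum, ← deg_sum hf.1, hf.2]
    rw [h1, sum_mul]
    refine sum_congr rfl fun P hP => ?_
    rw [Multiset.mem_toFinset] at hP
    have h2 := loc hv hp hχ hf.1 hP
    calc (((normalizedFactors f).count P * P.natDegree : ℕ) : ℂ) * ((AF v f : ℂ) * χ f)
        = (P.natDegree : ℂ) * ((((normalizedFactors f).count P : ℕ) : ℂ) * ((AF v f : ℂ) * χ f)) := by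
          push_cast; ring
      _ = _ := by
          rw [h2, mul_sum, hΦ]
  have hR : ∑ m ∈ Icc 1 n, (∑ P ∈ PD F m, (P.natDegree : ℂ) * (p P (m / P.natDegree) : ℂ) *
      χ P ^ (m / P.natDegree)) * ef v χ (n - m) =
      ∑ y ∈ (Icc 1 n).sigma (fun j => PD F j ×ˢ Mon F (n - j)),
        Φ y.2.1 (y.1 / y.2.1.natDegree) y.2.2 := by
    rw [sum_sigma]
    refine sum_congr rfl fun m _ => ?_
    unfold ef
    rw [sum_mul_sum, sum_product]
    refine sum_congr rfl fun P _ => sum_congr rfl fun g _ => ?_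
    rw [hΦ]
    ring
  rw [hL, hR]
  refine sum_bij' (fun x _ => ⟨x.2.2 * x.2.1.natDegree, (x.2.1, x.1 /ₘ x.2.1 ^ x.2.2)⟩)
    (fun y _ => ⟨y.2.1 ^ (y.1 / y.2.1.natDegree) * y.2.2, ⟨y.2.1, y.1 / y.2.1.natDegree⟩⟩)
    ?_ ?_ ?_ ?_ ?_
  · rintro ⟨f, P, m⟩ hx
    simp only [mem_sigma, mem_Mon, Multiset.mem_toFinset, mem_Icc] at hx
    obtain ⟨⟨h1, h2⟩, h3, h4, h5⟩ := hx
    obtain ⟨a1, a2, a3⟩ := (mem_nf_iff h1.ne_zero).1 h3
    have hd : 0 < P.natDegree := a2.natDegree_pos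
    obtain ⟨g, hg⟩ := (pow_dvd_iff_count h1.ne_zero a1 a2 m).2 h5
    have hgm : g.Monic := by
      have : (P ^ m * g).Monic := by rw [← hg]; exact h1
      exact (a1.pow m).of_mul_monic_left this
    have hdeg : m * P.natDegree + g.natDegree = n := by
      rw [← h2, hg, (a1.pow m).natDegree_mul hgm, a1.natDegree_pow]
    have hq : f /ₘ P ^ m = g := by
      conv_lhs => rw [hg]
      exact mul_divByMonic_cancel_left _ (a1.pow m)
    have h6 : 1 ≤ m * P.natDegree := Nat.mul_pos (by omega) hd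
    simp only [mem_sigma, mem_Icc, mem_product, mem_PD, mem_Mon]
    refine ⟨⟨h6, by omega⟩, ⟨a1, Nat.le_mul_of_pos_left _ (by omega), a2, dvd_mul_left _ _⟩, ?_, ?_⟩
    · rw [hq]; exact hgm
    · rw [hq]; omega
  · rintro ⟨j, P, g⟩ hy
    simp only [mem_sigma, mem_Icc, mem_product, mem_PD, mem_Mon] at hy
    obtain ⟨⟨h1, h2⟩, ⟨h3, h4, h5, h6⟩, h7, h8⟩ := hy
    have hd : 0 < P.natDegree := h5.natDegree_pos
    have h9 : j / P.natDegree * P.natDegree = j := Nat.div_mul_cancel h6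
    have h10 : 1 ≤ j / P.natDegree := (Nat.one_le_div_iff hd).2 h4
    have hm : (P ^ (j / P.natDegree) * g).Monic := (h3.pow _).mul h7
    simp only [mem_sigma, mem_Mon, Multiset.mem_toFinset, mem_Icc]
    refine ⟨⟨hm, ?_⟩, ?_, h10, ?_⟩
    · rw [(h3.pow _).natDegree_mul h7, h3.natDegree_pow, h9, h8]
      omega
    · rw [mem_nf_iff hm.ne_zero]
      exact ⟨h3, h5, (dvd_pow_self P (by omega)).trans (dvd_mul_right _ _)⟩
    · rw [← pow_dvd_iff_count hm.ne_zero h3 h5]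
      exact dvd_mul_right _ _
  · rintro ⟨f, P, m⟩ hx
    simp only [mem_sigma, mem_Mon, Multiset.mem_toFinset, mem_Icc] at hx
    obtain ⟨⟨h1, h2⟩, h3, h4, h5⟩ := hx
    obtain ⟨a1, a2, a3⟩ := (mem_nf_iff h1.ne_zero).1 h3
    have hd : 0 < P.natDegree := a2.natDegree_pos
    obtain ⟨g, hg⟩ := (pow_dvd_iff_count h1.ne_zero a1 a2 m).2 h5
    have hq : f /ₘ P ^ m = g := by
      conv_lhs => rw [hg]
      exact mul_divByMonic_cancel_left _ (a1.pow m)
    have h6 : m * P.natDegree / P.natDegree = m := Nat.mul_div_cancel _ hd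
    simp only [h6, hq, ← hg]
  · rintro ⟨j, P, g⟩ hy
    simp only [mem_sigma, mem_Icc, mem_product, mem_PD, mem_Mon] at hy
    obtain ⟨⟨h1, h2⟩, ⟨h3, h4, h5, h6⟩, h7, h8⟩ := hy
    have h9 : j / P.natDegree * P.natDegree = j := Nat.div_mul_cancel h6
    simp only [mul_divByMonic_cancel_left _ (h3.pow _), h9]
  · rintro ⟨f, P, m⟩ hx
    simp only [mem_sigma, mem_Mon, Multiset.mem_toFinset, mem_Icc] at hx
    obtain ⟨⟨h1, h2⟩, h3, h4, h5⟩ := hx
    obtain ⟨a1, a2, a3⟩ := (mem_nf_iff h1.ne_zero).1 h3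
    have hd : 0 < P.natDegree := a2.natDegree_pos
    have h6 : m * P.natDegree / P.natDegree = m := Nat.mul_div_cancel _ hd
    simp only [h6]

theorem t_LGD : Pool.Agent.Q284.GE.S_LGD := by
  intro F _ _ v p hv hp χ hχ n _
  exact lgd hv hp hχ n

end Pool.Agent.Q224.GE
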