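import Mathlib

/-!
# Project GE of helper284, job MAS: the calculus

If `n m_n ≤ ∑_{j ∈ Icc 1 n} j z_j m_(n-j)` for nonnegative sequences, then
`∑_{n ≤ N} m_n ≤ m_0 exp (∑_{1 ≤ j ≤ N} z_j)`.
-/

set_option autoImplicit false

open Finset

namespace Pool.Agent.Q224.GE

theorem sum_le_exp (m z : ℕ → ℝ) (hm : ∀ n, 0 ≤ m n) (hz : ∀ n, 0 ≤ z n)
    (h : ∀ n : ℕ, 1 ≤ n → (n : ℝ) * m n ≤ ∑ j ∈ Icc 1 n, (j : ℝ) * z j * m (n - j)) (N : ℕ) :
    ∑ n ∈ range (N + 1), m n ≤ m 0 * Real.exp (∑ j ∈ Icc 1 N, z j) := by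
  obtain ⟨g, hg⟩ : ∃ g : ℝ → ℝ, g = fun t => ∑ n ∈ range (N + 1), m n * t ^ n := ⟨_, rfl⟩
  obtain ⟨g', hg'⟩ : ∃ g' : ℝ → ℝ, g' = fun t => ∑ n ∈ range (N + 1), m n * (n * t ^ (n - 1)) := ⟨_, rfl⟩
  obtain ⟨w, hw⟩ : ∃ w : ℝ → ℝ, w = fun t => ∑ j ∈ Icc 1 N, z j * t ^ j := ⟨_, rfl⟩
  obtain ⟨w', hw'⟩ : ∃ w' : ℝ → ℝ, w' = fun t => ∑ j ∈ Icc 1 N, z j * (j * t ^ (j - 1)) := ⟨_, rfl⟩
  have dg : ∀ t, HasDerivAt g (g' t) t := by
    intro t
    rw [hg, hg']
    exact HasDerivAt.fun_sum fun n _ => (hasDerivAt_pow n t).const_mul (m n)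
  have dw : ∀ t, HasDerivAt w (w' t) t := by
    intro t
    rw [hw, hw']
    exact HasDerivAt.fun_sum fun n _ => (hasDerivAt_pow n t).const_mul (z n)
  have key : ∀ t : ℝ, 0 < t → g' t ≤ w' t * g t := by
    intro t ht
    have h1 : t * g' t = ∑ n ∈ range (N + 1), (n : ℝ) * m n * t ^ n := by
      rw [hg', mul_sum]
      refine sum_congr rfl fun n _ => ?_
      rcases Nat.eq_zero_or_pos n with rfl | hn
      · simp
      · have : t ^ n = t * t ^ (n - 1) := by
          rw [← pow_succ']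
          congr 1
          omega
        rw [this]
        ring
    have h2 : t * (w' t * g t) = ∑ j ∈ Icc 1 N, ∑ k ∈ range (N + 1), (j : ℝ) * z j * m k * t ^ (j + k) := by
      rw [hw', hg]
      simp only
      rw [sum_mul_sum, mul_sum]
      refine sum_congr rfl fun j hj => ?_
      rw [mul_sum]
      refine sum_congr rfl fun k _ => ?_
      have : t ^ (j + k) = t * t ^ (j - 1) * t ^ k := by
        rw [← pow_succ', ← pow_add]
        congr 1
        have := (mem_Icc.1 hj).1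
        omega
      rw [this]
      ring
    have h3 : ∑ n ∈ range (N + 1), (n : ℝ) * m n * t ^ n ≤
        ∑ n ∈ range (N + 1), ∑ j ∈ Icc 1 n, (j : ℝ) * z j * m (n - j) * t ^ n := by
      refine sum_le_sum fun n _ => ?_
      rcases Nat.eq_zero_or_pos n with rfl | hn
      · simp
      · rw [← sum_mul]
        exact mul_le_mul_of_nonneg_right (h n hn) (by positivity)
    have h4 : ∑ n ∈ range (N + 1), ∑ j ∈ Icc 1 n, (j : ℝ) * z j * m (n - j) * t ^ n ≤
        ∑ j ∈ Icc 1 N, ∑ k ∈ range (N + 1), (j : ℝ) * z j * m k * t ^ (j + k) := by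
      rw [sum_sigma', sum_sigma']
      have e1 : ∑ x ∈ (range (N + 1)).sigma fun n => Icc 1 n,
          (x.2 : ℝ) * z x.2 * m (x.1 - x.2) * t ^ x.1 =
          ∑ x ∈ ((range (N + 1)).sigma fun n => Icc 1 n).image
            (fun x : (Σ _ : ℕ, ℕ) => (⟨x.2, x.1 - x.2⟩ : Σ _ : ℕ, ℕ)),
            (x.1 : ℝ) * z x.1 * m x.2 * t ^ (x.1 + x.2) := by
        rw [sum_image]
        · refine sum_congr rfl fun x hx => ?_
          simp only [mem_sigma, mem_range, mem_Icc] at hx
          have : x.2 + (x.1 - x.2) = x.1 := by omega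
          simp only [this]
        · rintro ⟨a, b⟩ hx ⟨c, d⟩ hy hxy
          simp only [coe_sigma, Set.mem_sigma_iff, mem_coe, mem_range, mem_Icc] at hx hy
          simp only [Sigma.mk.injEq, heq_eq_eq] at hxy ⊢
          omega
      rw [e1]
      refine sum_le_sum_of_subset_of_nonneg ?_ ?_
      · intro x hx
        rw [mem_image] at hx
        obtain ⟨y, hy, rfl⟩ := hx
        simp only [mem_sigma, mem_range, mem_Icc] at hy ⊢
        omega
      · intro x _ _
        have h6 := hm x.2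
        have h7 := hz x.1
        positivity
    have h5 : t * g' t ≤ t * (w' t * g t) := by
      rw [h1, h2]
      exact h3.trans h4
    exact le_of_mul_le_mul_left h5 ht
  have hdF : ∀ t, HasDerivAt (fun t => g t * Real.exp (-w t))
      (g' t * Real.exp (-w t) + g t * (Real.exp (-w t) * -w' t)) t :=
    fun t => (dg t).mul (dw t).neg.exp
  have hanti : AntitoneOn (fun t => g t * Real.exp (-w t)) (Set.Icc 0 1) := by
    refine antitoneOn_of_deriv_nonpos (convex_Icc 0 1) ?_ ?_ ?_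
    · exact fun t _ => (hdF t).continuousAt.continuousWithinAt
    · exact fun t _ => (hdF t).differentiableAt.differentiableWithinAt
    · intro t ht
      rw [interior_Icc] at ht
      rw [(hdF t).deriv]
      have h1 := key t ht.1
      have h2 : g' t * Real.exp (-w t) + g t * (Real.exp (-w t) * -w' t) =
          (g' t - w' t * g t) * Real.exp (-w t) := by ring
      rw [h2]
      exact mul_nonpos_of_nonpos_of_nonneg (by linarith) (Real.exp_pos _).le
  have h1 := hanti (Set.left_mem_Icc.2 zero_le_one) (Set.right_mem_Icc.2 zero_le_one) zero_le_one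
  have g0 : g 0 = m 0 := by
    rw [hg]
    simp only
    rw [sum_range_succ']
    simp
  have w0 : w 0 = 0 := by
    rw [hw]
    refine sum_eq_zero fun j hj => ?_
    have := (mem_Icc.1 hj).1
    rw [zero_pow (by omega), mul_zero]
  have g1 : g 1 = ∑ n ∈ range (N + 1), m n := by
    rw [hg]
    simp
  have w1 : w 1 = ∑ j ∈ Icc 1 N, z j := by
    rw [hw]
    simp
  simp only [g0, w0, g1, w1, neg_zero, Real.exp_zero, mul_one] at h1
  rw [Real.exp_neg] at h1
  have h2 := Real.exp_pos (∑ j ∈ Icc 1 N, z j)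
  rwa [← div_eq_mul_inv, div_le_iff₀ h2] at h1

theorem summable_core (m z : ℕ → ℝ) (hm : ∀ n, 0 ≤ m n) (hz : ∀ n, 0 ≤ z n)
    (h : ∀ n : ℕ, 1 ≤ n → (n : ℝ) * m n ≤ ∑ j ∈ Icc 1 n, (j : ℝ) * z j * m (n - j))
    (hs : Summable fun j : ℕ => z (j + 1)) : Summable m := by
  refine summable_of_sum_range_le (c := m 0 * Real.exp (∑' j, z (j + 1))) hm fun N => ?_
  rcases N with _ | N
  · rw [range_zero, sum_empty]
    exact mul_nonneg (hm 0) (Real.exp_pos _).le
  · refine (sum_le_exp m z hm hz h N).trans ?_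
    refine mul_le_mul_of_nonneg_left (Real.exp_le_exp.2 ?_) (hm 0)
    have h1 : ∑ j ∈ Icc 1 N, z j = ∑ j ∈ range N, z (j + 1) := by
      rw [range_eq_Ico, sum_Ico_add' z 0 N 1]
      refine sum_congr ?_ fun _ _ => rfl
      ext j
      simp only [mem_Icc, mem_Ico]
      omega
    rw [h1]
    exact hs.sum_le_tsum _ fun _ _ => hz _

end Pool.Agent.Q224.GE
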