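import Pool.Agent.Q284.GE.Stm
import Pool.Agent.Q237.PX.AFM
import Pool.Agent.Q224.GE.MAScore

/-!
# Project GE of helper284, job MAS (absolute convergence)
-/

set_option autoImplicit false

open Finset Polynomial ComplexConjugate
open Pool.Agent.H341R2.Sharp (Mon mem_Mon)

namespace Pool.Agent.Q224.GE

open Pool.Agent.Q284.PS (CM PD)
open Pool.Agent.Q284.PX (AF ef)
open Pool.Agent.Q277.PS (mem_PD t_REC)
open Pool.Agent.Q237.PX (AF_pow t_AFM)

theorem t_MAS : Pool.Agent.Q284.GE.S_MAS := by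
  intro F _ _ v hv x hx hs
  refine summable_core (fun k : ℕ => (∑ f ∈ Mon F k, |AF v f|) * x ^ k)
    (fun j : ℕ => (∑ P ∈ PD F j, |v P (j / P.natDegree)|) * x ^ j) ?_ ?_ ?_ hs
  · intro n
    exact mul_nonneg (sum_nonneg fun _ _ => abs_nonneg _) (pow_nonneg hx n)
  · intro n
    exact mul_nonneg (sum_nonneg fun _ _ => abs_nonneg _) (pow_nonneg hx n)
  · intro n hn
    have h1 := t_REC F (fun f : F[X] => |AF v f|) (t_AFM F v hv).2.2.2.1 n hn
    have h2 := mul_le_mul_of_nonneg_right h1 (pow_nonneg hx n)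
    have h3 : ((n : ℝ) * ∑ f ∈ Mon F n, |AF v f|) * x ^ n =
        (n : ℝ) * ((∑ f ∈ Mon F n, |AF v f|) * x ^ n) := by ring
    rw [h3] at h2
    refine h2.trans (le_of_eq ?_)
    rw [sum_mul]
    refine sum_congr rfl fun j hj => ?_
    rw [mem_Icc] at hj
    have h4 : ∑ P ∈ PD F j, |AF v (P ^ (j / P.natDegree))| =
        ∑ P ∈ PD F j, |v P (j / P.natDegree)| := by
      refine sum_congr rfl fun P hP => ?_
      rw [mem_PD] at hP
      rw [AF_pow v hv P _ hP.1 hP.2.2.1]
    have h5 : x ^ n = x ^ j * x ^ (n - j) := by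
      rw [← pow_add]
      congr 1
      omega
    rw [h4, h5]
    ring

end Pool.Agent.Q224.GE
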