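import Mathlib

/-!
# Project GE of helper284: lemma PSG (the coefficients of the local factor from the power sums)

The proof follows Pool/Agent/Q79/PX/PSH.lean (by helper79), with radius `ρ` instead of `1`.
-/

set_option autoImplicit false

open Finset

namespace Pool.Agent.Q224.GE

open PowerSeries in
/-- the geometric series -/
theorem single_eq (g : ℂ) : (X : PowerSeries ℂ) * d⁄dX ℂ (PowerSeries.mk (fun k => g ^ k)) =
    PowerSeries.mk (fun i => if i = 0 then 0 else g ^ i) * PowerSeries.mk (fun k => g ^ k) := by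
  ext n
  rw [PowerSeries.coeff_mul (n := n) (φ := PowerSeries.mk (fun i => if i = 0 then 0 else g ^ i))
    (ψ := PowerSeries.mk (fun k => g ^ k))]
  have h1 : ∑ p ∈ antidiagonal n, PowerSeries.coeff p.1 (PowerSeries.mk (fun i => if i = 0 then 0 else g ^ i)) *
      PowerSeries.coeff p.2 (PowerSeries.mk (fun k => g ^ k)) =
      ∑ i ∈ range (n + 1), (if i = 0 then 0 else g ^ n) := by
    rw [Finset.Nat.sum_antidiagonal_eq_sum_range_succ_mk]
    refine Finset.sum_congr rfl fun i hi => ?_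
    rw [Finset.mem_range] at hi
    simp only [PowerSeries.coeff_mk]
    split_ifs with h
    · rw [zero_mul]
    · rw [← pow_add]
      congr 1
      omega
  rw [h1]
  rcases n with _ | n
  · simp
  · rw [PowerSeries.coeff_succ_X_mul, PowerSeries.coeff_derivative, PowerSeries.coeff_mk,
      Finset.sum_range_succ', if_pos rfl, add_zero]
    have h2 : ∑ i ∈ range (n + 1), (if i + 1 = 0 then (0 : ℂ) else g ^ (n + 1)) =
        ∑ i ∈ range (n + 1), g ^ (n + 1) :=
      Finset.sum_congr rfl fun i _ => by rw [if_neg (by omega)]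
    rw [h2, Finset.sum_const, Finset.card_range, nsmul_eq_mul]
    push_cast
    ring

open PowerSeries in
theorem prod_eq {ι : Type} (S : Finset ι) (γ : ι → ℂ) :
    (X : PowerSeries ℂ) * d⁄dX ℂ (∏ x ∈ S, PowerSeries.mk (fun k => γ x ^ k)) =
    (∑ x ∈ S, PowerSeries.mk (fun i => if i = 0 then 0 else γ x ^ i)) *
      ∏ x ∈ S, PowerSeries.mk (fun k => γ x ^ k) := by
  classical
  induction S using Finset.induction_on with
  | empty => simp
  | insert i S hi ih =>
    rw [Finset.prod_insert hi, Finset.sum_insert hi, Derivation.leibniz]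
    simp only [smul_eq_mul]
    have h1 := single_eq (γ i)
    calc (X : PowerSeries ℂ) * (PowerSeries.mk (fun k => γ i ^ k) *
            d⁄dX ℂ (∏ x ∈ S, PowerSeries.mk (fun k => γ x ^ k)) +
          (∏ x ∈ S, PowerSeries.mk (fun k => γ x ^ k)) * d⁄dX ℂ (PowerSeries.mk (fun k => γ i ^ k)))
        = PowerSeries.mk (fun k => γ i ^ k) * (X * d⁄dX ℂ (∏ x ∈ S, PowerSeries.mk (fun k => γ x ^ k))) +
          (∏ x ∈ S, PowerSeries.mk (fun k => γ x ^ k)) * (X * d⁄dX ℂ (PowerSeries.mk (fun k => γ i ^ k))) := by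
          ring
      _ = _ := by rw [ih, h1]; ring

theorem conv {ι : Type} (S : Finset ι) (γ : ι → ℂ) (ρ : ℝ) (hγ : ∀ x, ‖γ x‖ ≤ ρ) (w : ℂ)
    (hw : ‖w‖ * ρ < 1) :
    Summable (fun k : ℕ => ‖PowerSeries.coeff k (∏ x ∈ S, PowerSeries.mk (fun k => γ x ^ k)) * w ^ k‖) ∧
    HasSum (fun k : ℕ => PowerSeries.coeff k (∏ x ∈ S, PowerSeries.mk (fun k => γ x ^ k)) * w ^ k)
      (∏ x ∈ S, (1 - γ x * w)⁻¹) := by
  classical
  induction S using Finset.induction_on with
  | empty =>
    have h2 : ∀ k : ℕ, k ≠ 0 →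
        PowerSeries.coeff k (∏ x ∈ (∅ : Finset ι), PowerSeries.mk (fun k => γ x ^ k)) * w ^ k = 0 := by
      intro k hk
      rw [Finset.prod_empty, PowerSeries.coeff_one, if_neg hk, zero_mul]
    constructor
    · apply summable_of_ne_finset_zero (s := {0})
      intro k hk
      rw [Finset.mem_singleton] at hk
      rw [h2 k hk, norm_zero]
    · have h3 := hasSum_single (f := fun k : ℕ =>
        PowerSeries.coeff k (∏ x ∈ (∅ : Finset ι), PowerSeries.mk (fun k => γ x ^ k)) * w ^ k) 0 h2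
      simpa using h3
  | insert i S hi ih =>
    obtain ⟨hs1, hs2⟩ := ih
    have hn : ‖γ i * w‖ < 1 := by
      rw [norm_mul, mul_comm]
      exact lt_of_le_of_lt (mul_le_mul_of_nonneg_left (hγ i) (norm_nonneg _)) hw
    have hg1 : Summable (fun k : ℕ => ‖(γ i * w) ^ k‖) := by
      have := summable_geometric_of_lt_one (norm_nonneg (γ i * w)) hn
      simpa only [norm_pow] using this
    have hg2 : HasSum (fun k : ℕ => (γ i * w) ^ k) (1 - γ i * w)⁻¹ := hasSum_geometric_of_norm_lt_one hn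
    have heq : ∀ k : ℕ, PowerSeries.coeff k (∏ x ∈ insert i S, PowerSeries.mk (fun k => γ x ^ k)) * w ^ k =
        ∑ kl ∈ antidiagonal k, ((γ i * w) ^ kl.1) *
          (PowerSeries.coeff kl.2 (∏ x ∈ S, PowerSeries.mk (fun k => γ x ^ k)) * w ^ kl.2) := by
      intro k
      rw [Finset.prod_insert hi, PowerSeries.coeff_mul, Finset.sum_mul]
      refine Finset.sum_congr rfl fun kl hkl => ?_
      rw [Finset.HasAntidiagonal.mem_antidiagonal] at hkl
      rw [PowerSeries.coeff_mk, ← hkl, mul_pow, pow_add]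
      ring
    have h5 := summable_norm_sum_mul_antidiagonal_of_summable_norm hg1 hs1
    have h6 := tsum_mul_tsum_eq_tsum_sum_antidiagonal_of_summable_norm hg1 hs1
    rw [hg2.tsum_eq, hs2.tsum_eq] at h6
    simp only [heq]
    refine ⟨h5, ?_⟩
    rw [Finset.prod_insert hi, h6]
    exact h5.of_norm.hasSum

/-- the bound for the coefficients -/
theorem bound {ι : Type} (S : Finset ι) (γ : ι → ℂ) (ρ : ℝ) (hρ : 0 < ρ) (hγ : ∀ x, ‖γ x‖ ≤ ρ) (k : ℕ) :
    ‖PowerSeries.coeff k (∏ x ∈ S, PowerSeries.mk (fun k => γ x ^ k))‖ ≤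
      ((k : ℝ) + 1) ^ S.card * ρ ^ k := by
  classical
  induction S using Finset.induction_on generalizing k with
  | empty =>
    rw [Finset.prod_empty, PowerSeries.coeff_one, Finset.card_empty, pow_zero, one_mul]
    split_ifs with h
    · rw [h, pow_zero, norm_one]
    · rw [norm_zero]
      exact (pow_pos hρ k).le
  | insert i S hi ih =>
    rw [Finset.prod_insert hi, PowerSeries.coeff_mul, Finset.card_insert_of_notMem hi]
    refine (norm_sum_le _ _).trans ?_
    have h1 : ∀ p ∈ antidiagonal k, ‖PowerSeries.coeff p.1 (PowerSeries.mk fun k => γ i ^ k) *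
        PowerSeries.coeff p.2 (∏ x ∈ S, PowerSeries.mk fun k => γ x ^ k)‖ ≤
        ((k : ℝ) + 1) ^ S.card * ρ ^ k := by
      intro p hp
      rw [Finset.HasAntidiagonal.mem_antidiagonal] at hp
      rw [norm_mul, PowerSeries.coeff_mk, norm_pow]
      have h2 : ‖γ i‖ ^ p.1 ≤ ρ ^ p.1 := pow_le_pow_left₀ (norm_nonneg _) (hγ i) _
      have h3 : ((p.2 : ℝ) + 1) ^ S.card ≤ ((k : ℝ) + 1) ^ S.card := by
        refine pow_le_pow_left₀ (by positivity) ?_ _
        have : (p.2 : ℝ) ≤ k := by exact_mod_cast (by omega : p.2 ≤ k)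
        linarith
      calc ‖γ i‖ ^ p.1 * ‖PowerSeries.coeff p.2 (∏ x ∈ S, PowerSeries.mk fun k => γ x ^ k)‖
          ≤ ρ ^ p.1 * (((p.2 : ℝ) + 1) ^ S.card * ρ ^ p.2) :=
            mul_le_mul h2 (ih p.2) (norm_nonneg _) (by positivity)
        _ = ((p.2 : ℝ) + 1) ^ S.card * ρ ^ k := by
            rw [← hp, pow_add]
            ring
        _ ≤ _ := mul_le_mul_of_nonneg_right h3 (by positivity)
    refine (Finset.sum_le_sum h1).trans ?_
    rw [Finset.sum_const, Finset.Nat.card_antidiagonal, nsmul_eq_mul]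
    push_cast
    rw [pow_succ]
    exact le_of_eq (by ring)

theorem psg_core (X : Type) [Fintype X] (γ : X → ℂ) (p : ℕ → ℝ) (ρ : ℝ) (hρ : 0 < ρ)
    (hγ : ∀ x, ‖γ x‖ ≤ ρ) (hp : ∀ k : ℕ, 1 ≤ k → ∑ x, γ x ^ k = (p k : ℂ)) :
    ∃ h : ℕ → ℝ, h 0 = 1 ∧
    (∀ k : ℕ, 1 ≤ k → (k : ℝ) * h k = ∑ i ∈ Icc 1 k, p i * h (k - i)) ∧
    (∀ k : ℕ, |h k| ≤ ((k : ℝ) + 1) ^ Fintype.card X * ρ ^ k) ∧
    ∀ w : ℂ, ‖w‖ * ρ < 1 → HasSum (fun k : ℕ => (h k : ℂ) * w ^ k) (∏ x, (1 - γ x * w)⁻¹) := by
  obtain ⟨E, hE⟩ : ∃ E : PowerSeries ℂ, E = ∏ x, PowerSeries.mk (fun k => γ x ^ k) := ⟨_, rfl⟩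
  have hE0 : PowerSeries.coeff 0 E = 1 := by
    rw [hE, PowerSeries.coeff_zero_eq_constantCoeff_apply, map_prod]
    refine Finset.prod_eq_one fun x _ => ?_
    rw [← PowerSeries.coeff_zero_eq_constantCoeff_apply, PowerSeries.coeff_mk, pow_zero]
  have hrec : ∀ k : ℕ, 1 ≤ k → (k : ℂ) * PowerSeries.coeff k E =
      ∑ i ∈ Icc 1 k, (p i : ℂ) * PowerSeries.coeff (k - i) E := by
    intro k hk
    have h1 := congrArg (PowerSeries.coeff k) (prod_eq univ γ)
    rw [← hE] at h1
    obtain ⟨n, rfl⟩ : ∃ n, k = n + 1 := ⟨k - 1, by omega⟩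
    rw [PowerSeries.coeff_succ_X_mul, PowerSeries.coeff_mul,
      Finset.Nat.sum_antidiagonal_eq_sum_range_succ_mk, PowerSeries.coeff_derivative, Finset.range_eq_Ico,
      Finset.sum_eq_sum_Ico_succ_bot (by omega)] at h1
    have h2 : PowerSeries.coeff 0 (∑ x : X, PowerSeries.mk (fun i => if i = 0 then 0 else γ x ^ i)) = 0 := by
      rw [map_sum]
      refine Finset.sum_eq_zero fun x _ => ?_
      rw [PowerSeries.coeff_mk, if_pos rfl]
    simp only [h2, zero_mul, zero_add] at h1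
    have h3 : Ico 1 (n + 1).succ = Icc 1 (n + 1) := by
      ext i
      rw [Finset.mem_Ico, Finset.mem_Icc]
      omega
    rw [h3] at h1
    have h4 : (((n + 1 : ℕ) : ℂ)) * PowerSeries.coeff (n + 1) E = PowerSeries.coeff (n + 1) E * (n + 1) := by
      push_cast; ring
    rw [h4, h1]
    refine Finset.sum_congr rfl fun i hi => ?_
    rw [Finset.mem_Icc] at hi
    congr 1
    rw [map_sum, ← hp i hi.1]
    refine Finset.sum_congr rfl fun x _ => ?_
    rw [PowerSeries.coeff_mk, if_neg (by omega)]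
  have hreal : ∀ k : ℕ, PowerSeries.coeff k E = (((PowerSeries.coeff k E).re : ℝ) : ℂ) := by
    intro k
    induction k using Nat.strong_induction_on with
    | _ k ih =>
      rcases Nat.eq_zero_or_pos k with rfl | hk
      · rw [hE0]; simp
      · have h1 := hrec k hk
        have h2 : (k : ℂ) * PowerSeries.coeff k E =
            ((∑ i ∈ Icc 1 k, p i * (PowerSeries.coeff (k - i) E).re : ℝ) : ℂ) := by
          rw [h1]
          push_cast
          refine Finset.sum_congr rfl fun i hi => ?_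
          rw [Finset.mem_Icc] at hi
          rw [← ih (k - i) (by omega)]
        have hkc : ((k : ℝ) : ℂ) ≠ 0 := by
          have : (k : ℝ) ≠ 0 := by positivity
          exact_mod_cast this
        have h3 : PowerSeries.coeff k E =
            (((∑ i ∈ Icc 1 k, p i * (PowerSeries.coeff (k - i) E).re) / k : ℝ) : ℂ) := by
          rw [Complex.ofReal_div, ← h2]
          push_cast at hkc ⊢
          field_simp
        rw [h3, Complex.ofReal_re]
  refine ⟨fun k => (PowerSeries.coeff k E).re, ?_, ?_, ?_, ?_⟩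
  · simp only [hE0, Complex.one_re]
  · intro k hk
    have h1 := hrec k hk
    rw [hreal k] at h1
    have h2 : ((((k : ℝ) * (PowerSeries.coeff k E).re : ℝ)) : ℂ) =
        ((∑ i ∈ Icc 1 k, p i * (PowerSeries.coeff (k - i) E).re : ℝ) : ℂ) := by
      push_cast
      rw [h1]
      refine Finset.sum_congr rfl fun i hi => ?_
      rw [← hreal (k - i)]
    exact_mod_cast h2
  · intro k
    refine (Complex.abs_re_le_norm _).trans ?_
    rw [hE]
    exact bound univ γ ρ hρ hγ k
  · intro w hw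
    have h1 := (conv univ γ ρ hγ w hw).2
    rw [← hE] at h1
    have h2 : (fun k : ℕ => PowerSeries.coeff k E * w ^ k) =
        fun k : ℕ => (((PowerSeries.coeff k E).re : ℝ) : ℂ) * w ^ k := by
      funext k
      rw [← hreal k]
    rw [h2] at h1
    exact h1

end Pool.Agent.Q224.GE
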