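import Pool.Agent.Q284.GE.Stm
import Pool.Agent.Q224.GE.PSGcore

/-!
# Project GE of helper284, job PSG
-/

set_option autoImplicit false

namespace Pool.Agent.Q224.GE

theorem t_PSG : Pool.Agent.Q284.GE.S_PSG :=
  fun X _ γ p ρ hρ hγ hp => psg_core X γ p ρ hρ hγ hp

end Pool.Agent.Q224.GE
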